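import Pool.Agent.Lib.H24N.N1

/-!
# H98L, file L1: the ladder theorem (helper7) for families of edges in a two dimensional grid

`x`, `y`: positions of an edge on the two sides of a face; two edges of `S` cross if and only if they
are incomparable in the product order. `U S c d`: the edges of `S` above `c` and `d`. `Cons X c d`:
`c`, `d` are consecutive minimal elements of `X`. `Lad S c d`: the ladder pairs, that is consecutive
minimal elements of `S`, or of `U S a b` for a ladder pair `a`, `b`.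

`acy_of_lad`: if `S` is nonempty and every ladder pair has an upper bound in `S`, then the complex of
the plane subsets of `S` is acyclic. `acy_of_type`: the form with types (A1), (A2), (B').
-/

set_option autoImplicit false
set_option linter.unusedSectionVars false

namespace H98L

open Finset H98P H98Z H24N

variable {E : Type*} [Fintype E] [DecidableEq E]

/-- The product order of the positions. -/
def Le (x y : E → ℕ) (a b : E) : Prop := x a ≤ x b ∧ y a ≤ y b

theorem Le.rfl {x y : E → ℕ} {a : E} : Le x y a a := ⟨le_refl _, le_refl _⟩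

theorem Le.trans {x y : E → ℕ} {a b c : E} (h : Le x y a b) (h' : Le x y b c) : Le x y a c :=
  ⟨h.1.trans h'.1, h.2.trans h'.2⟩

/-- The data: positions are injective on `S` and crossing means incomparable. -/
structure Grid (cross : E → E → Prop) (x y : E → ℕ) (S : Finset E) : Prop where
  /-- positions determine the edge -/
  inj : ∀ a ∈ S, ∀ b ∈ S, x a = x b → y a = y b → a = b
  /-- crossing edges are incomparable -/
  cr : ∀ a ∈ S, ∀ b ∈ S, (cross a b ↔ ¬ Le x y a b ∧ ¬ Le x y b a)

theorem Grid.mono {cross : E → E → Prop} {x y : E → ℕ} {S X : Finset E} (h : Grid cross x y S)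
    (hX : X ⊆ S) : Grid cross x y X :=
  ⟨fun a ha b hb => h.inj a (hX ha) b (hX hb), fun a ha b hb => h.cr a (hX ha) b (hX hb)⟩

theorem Grid.anti {cross : E → E → Prop} {x y : E → ℕ} {S : Finset E} (h : Grid cross x y S)
    {a b : E} (ha : a ∈ S) (hb : b ∈ S) (h1 : Le x y a b) (h2 : Le x y b a) : a = b :=
  h.inj a ha b hb (le_antisymm h1.1 h2.1) (le_antisymm h1.2 h2.2)

/-- `m` is a minimal element of `X`. -/
def Mn (x y : E → ℕ) (X : Finset E) (m : E) : Prop := m ∈ X ∧ ∀ z ∈ X, Le x y z m → z = m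

/-- `c`, `d` are consecutive minimal elements of `X`. -/
def Cons (x y : E → ℕ) (X : Finset E) (c d : E) : Prop :=
  Mn x y X c ∧ Mn x y X d ∧ x c < x d ∧ ∀ m, Mn x y X m → x c < x m → ¬ x m < x d

/-- The elements of `S` above `c` and `d`. -/
noncomputable def U (x y : E → ℕ) (S : Finset E) (c d : E) : Finset E :=
  @Finset.filter E (fun z => Le x y c z ∧ Le x y d z) (Classical.decPred _) S

theorem mem_U {x y : E → ℕ} {S : Finset E} {c d z : E} :
    z ∈ U x y S c d ↔ z ∈ S ∧ Le x y c z ∧ Le x y d z :=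
  @Finset.mem_filter E (fun z => Le x y c z ∧ Le x y d z) (Classical.decPred _) S z

/-- Every element is above a minimal element. -/
theorem exists_mn {cross : E → E → Prop} {x y : E → ℕ} {X : Finset E} (hG : Grid cross x y X)
    {z : E} (hz : z ∈ X) : ∃ m, Mn x y X m ∧ Le x y m z := by
  classical
  obtain ⟨m, hm, hmin⟩ := exists_min_image (X.filter fun w => Le x y w z) (fun w => x w + y w)
    ⟨z, mem_filter.2 ⟨hz, Le.rfl⟩⟩
  rw [mem_filter] at hm
  refine ⟨m, ⟨hm.1, fun w hw hwm => ?_⟩, hm.2⟩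
  have h1 := hmin w (mem_filter.2 ⟨hw, hwm.trans hm.2⟩)
  obtain ⟨h2, h3⟩ := hwm
  exact hG.inj w hw m hm.1 (by omega) (by omega)

/-- Minimal elements with the first coordinate increasing have the second decreasing. -/
theorem mn_y {x y : E → ℕ} {X : Finset E} {a b : E} (ha : Mn x y X a) (hb : Mn x y X b) (h : x a ≤ x b) : y b ≤ y a := by
  by_contra h1
  have h2 := hb.2 a ha.1 ⟨h, by omega⟩
  rw [h2] at h1
  exact h1 (le_refl _)

/-- A cone. -/
theorem acy_cone {cross : E → E → Prop} (hsymm : ∀ e f, cross e f → cross f e) {x y : E → ℕ}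
    {X : Finset E} (hG : Grid cross x y X) {d : E} (hd : d ∈ X) (h : ∀ z ∈ X, Le x y d z) :
    Acy cross X := by
  have hdz : ∀ z ∈ X, ¬ cross d z := fun z hz h1 => ((hG.cr d hd z hz).1 h1).1 (h z hz)
  intro z hz hb
  refine acyclic hsymm (S := {d}) (singleton_subset_iff.2 hd) ?_ (fun F hF _ => ⟨d, mem_singleton_self d,
    fun f hf => hdz f (mem_sdiff.1 (hF hf)).1⟩) hz hb
  intro a ha b hb'
  rw [mem_singleton] at ha hb'
  rw [ha, hb']
  exact hdz d hd

/-- GLUING LEMMA. -/
theorem glue {cross : E → E → Prop} (hsymm : ∀ e f, cross e f → cross f e) {x y : E → ℕ} :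
    ∀ (k : ℕ) (X : Finset E), X.card = k → X.Nonempty → Grid cross x y X →
      (∀ c d, Cons x y X c d → Acy cross (U x y X c d)) → Acy cross X := by
  classical
  intro k
  induction k using Nat.strong_induction_on with
  | _ k ih =>
    intro X hk hX hG hc
    -- the last minimal element
    obtain ⟨d, hd, hdmax⟩ := exists_max_image (X.filter fun m => Mn x y X m) x (by
      obtain ⟨z, hz⟩ := hX
      obtain ⟨m, hm, _⟩ := exists_mn hG hz
      exact ⟨m, mem_filter.2 ⟨hm.1, hm⟩⟩)
    rw [mem_filter] at hd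
    obtain ⟨hdX, hdm⟩ := hd
    by_cases h1 : ∃ m, Mn x y X m ∧ m ≠ d
    · -- the last minimal element but one
      obtain ⟨c, hc1, hcmax⟩ := exists_max_image (X.filter fun m => Mn x y X m ∧ m ≠ d) x (by
        obtain ⟨m, hm⟩ := h1
        exact ⟨m, mem_filter.2 ⟨hm.1.1, hm⟩⟩)
      rw [mem_filter] at hc1
      obtain ⟨hcX, hcm, hcd⟩ := hc1
      have hlt : ∀ m, Mn x y X m → m ≠ d → x m < x d := by
        intro m hm hmd
        have h2 := hdmax m (mem_filter.2 ⟨hm.1, hm⟩)
        rcases Nat.lt_or_ge (x m) (x d) with h3 | h3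
        · exact h3
        · exact absurd (hG.inj m hm.1 d hdX (le_antisymm h2 h3)
            (le_antisymm (mn_y hdm hm h3) (mn_y hm hdm h2))) hmd
      have hcons : Cons x y X c d := by
        refine ⟨hcm, hdm, hlt c hcm hcd, fun m hm h2 h3 => ?_⟩
        have h4 : m ≠ d := fun h => by
          rw [h] at h3
          exact lt_irrefl _ h3
        have h5 := hcmax m (mem_filter.2 ⟨hm.1, hm, h4⟩)
        omega
      obtain ⟨X', hX'⟩ : ∃ X' : Finset E, ∀ z, z ∈ X' ↔ z ∈ X ∧ ∃ m, Mn x y X m ∧ m ≠ d ∧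
          Le x y m z := ⟨X.filter fun z => ∃ m, Mn x y X m ∧ m ≠ d ∧ Le x y m z, fun z => mem_filter⟩
      obtain ⟨Xd, hXd⟩ : ∃ Xd : Finset E, ∀ z, z ∈ Xd ↔ z ∈ X ∧ Le x y d z :=
        ⟨X.filter fun z => Le x y d z, fun z => mem_filter⟩
      have hX'X : X' ⊆ X := fun z hz => ((hX' z).1 hz).1
      have hXdX : Xd ⊆ X := fun z hz => ((hXd z).1 hz).1
      have hdX' : d ∉ X' := by
        intro h
        obtain ⟨_, m, hm, hmd, hle⟩ := (hX' d).1 h
        exact hmd (hdm.2 m hm.1 hle)
      have hmem : ∀ m, Mn x y X m → m ≠ d → m ∈ X' := fun m hm hmd =>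
        (hX' m).2 ⟨hm.1, m, hm, hmd, Le.rfl⟩
      have hmn' : ∀ m, Mn x y X' m ↔ Mn x y X m ∧ m ≠ d := by
        intro m
        constructor
        · rintro ⟨hm1, hm2⟩
          obtain ⟨_, m0, h2, h3, h4⟩ := (hX' m).1 hm1
          have h5 := hm2 m0 (hmem m0 h2 h3) h4
          rw [← h5]
          exact ⟨h2, h3⟩
        · rintro ⟨hm1, hm2⟩
          exact ⟨hmem m hm1 hm2, fun z hz => hm1.2 z (hX'X hz)⟩
      have a1 : Acy cross X' := by
        refine ih X'.card ?_ X' rfl ⟨c, hmem c hcm hcd⟩ (hG.mono hX'X) ?_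
        · rw [← hk]
          exact card_lt_card ⟨hX'X, fun h => hdX' (h hdX)⟩
        · intro c' d' h2
          obtain ⟨h3, h4, h5, h6⟩ := h2
          obtain ⟨h3a, h3b⟩ := (hmn' c').1 h3
          obtain ⟨h4a, h4b⟩ := (hmn' d').1 h4
          have h7 : Cons x y X c' d' := by
            refine ⟨h3a, h4a, h5, fun m hm h8 h9 => ?_⟩
            refine h6 m ((hmn' m).2 ⟨hm, fun h => ?_⟩) h8 h9
            rw [h] at h9
            have := hlt d' h4a h4b
            omega
          have h8 : U x y X' c' d' = U x y X c' d' := by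
            ext z
            rw [mem_U, mem_U]
            constructor
            · exact fun h => ⟨hX'X h.1, h.2⟩
            · exact fun h => ⟨(hX' z).2 ⟨h.1, c', h3a, h3b, h.2.1⟩, h.2⟩
          rw [h8]
          exact hc c' d' h7
      have a2 : Acy cross Xd := acy_cone hsymm (hG.mono hXdX) ((hXd d).2 ⟨hdX, Le.rfl⟩)
        fun z hz => ((hXd z).1 hz).2
      have a3 : Acy cross (U x y X c d) := hc c d hcons
      have hmv := mv (dc_plane (cross := cross) X') (dc_plane (cross := cross) Xd) a1 a2 (by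
        refine AcyK.congr (fun s => ?_) (acyK_iff.2 a3)
        constructor
        · rintro ⟨h2, h3⟩
          refine ⟨⟨fun z hz => ?_, h3⟩, fun z hz => ?_, h3⟩
          · obtain ⟨h4, h5, h6⟩ := mem_U.1 (h2 hz)
            exact (hX' z).2 ⟨h4, c, hcm, hcd, h5⟩
          · obtain ⟨h4, h5, h6⟩ := mem_U.1 (h2 hz)
            exact (hXd z).2 ⟨h4, h6⟩
        · rintro ⟨⟨h2, h3⟩, h4, _⟩
          refine ⟨fun z hz => ?_, h3⟩
          obtain ⟨h5, m, hm, hmd, h6⟩ := (hX' z).1 (h2 hz)
          obtain ⟨_, h7⟩ := (hXd z).1 (h4 hz)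
          refine mem_U.2 ⟨h5, ?_, h7⟩
          have h8 := hcmax m (mem_filter.2 ⟨hm.1, hm, hmd⟩)
          have h9 := mn_y hm hcm h8
          have h10 := hlt c hcm hcd
          obtain ⟨h11, h12⟩ := h6
          obtain ⟨h13, h14⟩ := h7
          exact ⟨by omega, by omega⟩)
      refine acyK_iff.1 (AcyK.congr (fun s => ?_) hmv)
      constructor
      · rintro (⟨h2, h3⟩ | ⟨h2, h3⟩)
        · exact ⟨h2.trans hX'X, h3⟩
        · exact ⟨h2.trans hXdX, h3⟩
      · rintro ⟨h2, h3⟩
        by_cases h4 : s ⊆ X'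
        · exact Or.inl ⟨h4, h3⟩
        · refine Or.inr ⟨fun z hz => ?_, h3⟩
          rw [Finset.not_subset] at h4
          obtain ⟨w, hw, hwX'⟩ := h4
          by_contra hzd
          -- `w` is above `d` only, `z` is not above `d`
          obtain ⟨mw, hmw, hlw⟩ := exists_mn hG (h2 hw)
          have hmwd : mw = d := by
            by_contra h5
            exact hwX' ((hX' w).2 ⟨h2 hw, mw, hmw, h5, hlw⟩)
          rw [hmwd] at hlw
          obtain ⟨mz, hmz, hlz⟩ := exists_mn hG (h2 hz)
          have hmzd : mz ≠ d := by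
            intro h5
            rw [h5] at hlz
            exact hzd ((hXd z).2 ⟨h2 hz, hlz⟩)
          apply h3 w hw z hz
          refine (hG.cr w (h2 hw) z (h2 hz)).2 ⟨fun h5 => ?_, fun h5 => ?_⟩
          · exact hzd ((hXd z).2 ⟨h2 hz, hlw.trans h5⟩)
          · exact hwX' ((hX' w).2 ⟨h2 hw, mz, hmz, hmzd, hlz.trans h5⟩)
    · push Not at h1
      refine acy_cone hsymm hG hdX fun z hz => ?_
      obtain ⟨m, hm, hle⟩ := exists_mn hG hz
      rw [← h1 m hm]
      exact hle

/-- The ladder pairs. -/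
inductive Lad (x y : E → ℕ) (S : Finset E) : E → E → Prop
  | base (c d : E) : Cons x y S c d → Lad x y S c d
  | step (a b c d : E) : Lad x y S a b → Cons x y (U x y S a b) c d → Lad x y S c d

/-- LADDER THEOREM (helper7). -/
theorem acy_of_lad {cross : E → E → Prop} (hsymm : ∀ e f, cross e f → cross f e) {x y : E → ℕ}
    {S : Finset E} (hG : Grid cross x y S) (hS : S.Nonempty)
    (hL : ∀ c d, Lad x y S c d → (U x y S c d).Nonempty) : Acy cross S := by
  have key : ∀ (k : ℕ) (a b : E), (U x y S a b).card = k → Lad x y S a b →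
      Acy cross (U x y S a b) := by
    intro k
    induction k using Nat.strong_induction_on with
    | _ k ih =>
      intro a b hk hab
      have hsub : U x y S a b ⊆ S := fun z hz => (mem_U.1 hz).1
      refine glue hsymm _ _ rfl (hL a b hab) (hG.mono hsub) fun c d hcd => ?_
      have h1 : U x y (U x y S a b) c d = U x y S c d := by
        ext z
        rw [mem_U, mem_U, mem_U]
        constructor
        · rintro ⟨⟨h1, _⟩, h2⟩
          exact ⟨h1, h2⟩
        · rintro ⟨h1, h2, h3⟩
          obtain ⟨h4, h5, h6⟩ := mem_U.1 hcd.1.1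
          exact ⟨⟨h1, h5.trans h2, h6.trans h2⟩, h2, h3⟩
      rw [h1]
      refine ih _ ?_ c d rfl (Lad.step a b c d hab hcd)
      rw [← hk]
      refine card_lt_card ⟨fun z hz => ?_, fun h => ?_⟩
      · obtain ⟨h2, h3, h4⟩ := mem_U.1 hz
        obtain ⟨h4', h5, h6⟩ := mem_U.1 hcd.1.1
        exact mem_U.2 ⟨h2, h5.trans h3, h6.trans h3⟩
      · obtain ⟨h2, h3, h4⟩ := mem_U.1 (h hcd.1.1)
        have h5 := hcd.2.2.1
        obtain ⟨h6, _⟩ := h4
        omega
  exact glue hsymm _ _ rfl hS hG fun c d hcd => key _ c d rfl (Lad.base c d hcd)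

/-- Consecutive minimal elements cross. -/
theorem Cons.cross {cross : E → E → Prop} {x y : E → ℕ} {X : Finset E} (hG : Grid cross x y X)
    {c d : E} (h : Cons x y X c d) : cross c d := by
  obtain ⟨h1, h2, h3, _⟩ := h
  refine (hG.cr c h1.1 d h2.1).2 ⟨fun h4 => ?_, fun h4 => ?_⟩
  · rw [h2.2 c h1.1 h4] at h3
    exact lt_irrefl _ h3
  · rw [h1.2 d h2.1 h4] at h3
    exact lt_irrefl _ h3

/-- THE FORM WITH TYPES: (A1) for minimal pairs, (A2), (B') for consecutive minimal pairs. -/
theorem acy_of_type {cross : E → E → Prop} (hsymm : ∀ e f, cross e f → cross f e) {x y : E → ℕ}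
    {S : Finset E} (hG : Grid cross x y S) (hS : S.Nonempty) (L : E → E → Prop)
    (hA1 : ∀ c d, Cons x y S c d → L c d)
    (hA2 : ∀ c ∈ S, ∀ d ∈ S, cross c d → x c < x d → L c d → ∃ z ∈ S, Le x y c z ∧ Le x y d z)
    (hB : ∀ a ∈ S, ∀ b ∈ S, cross a b → x a < x b → L a b → ∀ c d, Cons x y (U x y S a b) c d →
      L c d) : Acy cross S := by
  have key : ∀ c d, Lad x y S c d → c ∈ S ∧ d ∈ S ∧ cross c d ∧ x c < x d ∧ L c d := by
    intro c d h
    induction h with
    | base c d h => exact ⟨h.1.1, h.2.1.1, h.cross hG, h.2.2.1, hA1 c d h⟩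
    | step a b c d _ hcd ih =>
      obtain ⟨ha, hb, hab, hlt, hL⟩ := ih
      have hsub : U x y S a b ⊆ S := fun z hz => (mem_U.1 hz).1
      exact ⟨hsub hcd.1.1, hsub hcd.2.1.1, hcd.cross (hG.mono hsub), hcd.2.2.1,
        hB a ha b hb hab hlt hL c d hcd⟩
  refine acy_of_lad hsymm hG hS fun c d h => ?_
  obtain ⟨hc, hd, hcd, hlt, hL⟩ := key c d h
  obtain ⟨z, hz, h1, h2⟩ := hA2 c hc d hd hcd hlt hL
  exact ⟨z, mem_U.2 ⟨hz, h1, h2⟩⟩

end H98L
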